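import Mathlib
import Pool.Agent.Helper166_DP.Strict
import Pool.Agent.Helper166_DP.Words

/-!
# `12⋯(m-2)m(m-1)` is not the least avoided uniform distant pattern

For `m = 4` and `r = 1` we prove `|Av_n(dist_1(2143))| < |Av_n(dist_1(1243))|` for all `n ≥ 8`.
Since `τ_4 = 1243`, this disproves the conjecture of MP_0bc917_co.

Both numbers are counted by processes which read the values of a permutation in decreasing order.
-/

set_option autoImplicit false

namespace Pool.Agent.Results.MP_0bc917_co.NotLeastAvoided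

open Pool.Agent.Helper166_DP

/-- `π ∈ S_n` contains the uniform distant pattern `dist_r(q)`: there are positions
`i_1 < ⋯ < i_m` with `i_{j+1} - i_j ≥ r + 1` such that `π(i_a) < π(i_b)` iff `q_a < q_b`. -/
def Contains {n m : ℕ} (π : Equiv.Perm (Fin n)) (r : ℕ) (q : Equiv.Perm (Fin m)) : Prop :=
  ∃ i : Fin m → Fin n, (∀ a b : Fin m, a.val + 1 = b.val → (i a).val + (r + 1) ≤ (i b).val) ∧
    ∀ a b : Fin m, π (i a) < π (i b) ↔ q a < q b

/-- `|Av_n(dist_r(q))|` -/
noncomputable def numAv {m : ℕ} (n r : ℕ) (q : Equiv.Perm (Fin m)) : ℕ :=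
  Nat.card {π : Equiv.Perm (Fin n) // ¬ Contains π r q}

/-- `τ_m = 12⋯(m-2)m(m-1)`: the identity with the last two entries exchanged -/
def tau (m : ℕ) (hm : 3 ≤ m) : Equiv.Perm (Fin m) :=
  Equiv.swap ⟨m - 2, by omega⟩ ⟨m - 1, by omega⟩

/-- the permutation `2143` -/
def q2143 : Equiv.Perm (Fin 4) := Equiv.swap 0 1 * Equiv.swap 2 3

variable {n : ℕ}

/-- positions of the values `n-1, n-2, …, 0` -/
def W (π : Equiv.Perm (Fin n)) : List ℕ :=
  List.ofFn (fun t : Fin n => ((π.symm (Fin.rev t) : Fin n) : ℕ))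

lemma sub4 (g : Fin n → ℕ) (a b x y : ℕ) : List.Sublist [a, b, x, y] (List.ofFn g) ↔
    ∃ t1 t2 t3 t4 : Fin n, t1 < t2 ∧ t2 < t3 ∧ t3 < t4 ∧ g t1 = a ∧ g t2 = b ∧ g t3 = x ∧
      g t4 = y := by
  rw [List.sublist_iff_exists_fin_orderEmbedding_get_eq]
  constructor
  · rintro ⟨f, hf⟩
    have hm := f.strictMono
    have hl : (List.ofFn g).length = n := List.length_ofFn
    refine ⟨Fin.cast hl (f 0), Fin.cast hl (f 1), Fin.cast hl (f 2), Fin.cast hl (f 3),
      ?_, ?_, ?_, ?_, ?_, ?_, ?_⟩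
    · have h := hm (show (0 : Fin 4) < 1 by decide); exact h
    · have h := hm (show (1 : Fin 4) < 2 by decide); exact h
    · have h := hm (show (2 : Fin 4) < 3 by decide); exact h
    · have h := hf 0; rw [List.get_ofFn] at h; exact h.symm
    · have h := hf 1; rw [List.get_ofFn] at h; exact h.symm
    · have h := hf 2; rw [List.get_ofFn] at h; exact h.symm
    · have h := hf 3; rw [List.get_ofFn] at h; exact h.symm
  · rintro ⟨t1, t2, t3, t4, h12, h23, h34, rfl, rfl, rfl, rfl⟩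
    have hl : n = (List.ofFn g).length := List.length_ofFn.symm
    refine ⟨OrderEmbedding.ofStrictMono
      (fun i : Fin 4 => Fin.cast hl ((![t1, t2, t3, t4] : Fin 4 → Fin n) i)) ?_, ?_⟩
    · rw [Fin.strictMono_iff_lt_succ]
      intro i
      fin_cases i
      · exact h12
      · exact h23
      · exact h34
    · intro ix
      rw [List.get_ofFn]
      change Fin 4 at ix
      fin_cases ix <;> rfl

lemma subW (π : Equiv.Perm (Fin n)) (a b x y : ℕ) : List.Sublist [a, b, x, y] (W π) ↔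
    ∃ A B X Y : Fin n, A.val = a ∧ B.val = b ∧ X.val = x ∧ Y.val = y ∧ π Y < π X ∧ π X < π B ∧
      π B < π A := by
  unfold W
  rw [sub4]
  constructor
  · rintro ⟨t1, t2, t3, t4, h12, h23, h34, e1, e2, e3, e4⟩
    refine ⟨_, _, _, _, e1, e2, e3, e4, ?_, ?_, ?_⟩ <;>
      simpa [Fin.rev_lt_rev] using by assumption
  · rintro ⟨A, B, X, Y, rfl, rfl, rfl, rfl, h1, h2, h3⟩
    refine ⟨Fin.rev (π A), Fin.rev (π B), Fin.rev (π X), Fin.rev (π Y), ?_, ?_, ?_, ?_, ?_, ?_, ?_⟩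
    · exact Fin.rev_lt_rev.2 h3
    · exact Fin.rev_lt_rev.2 h2
    · exact Fin.rev_lt_rev.2 h1
    all_goals simp

lemma iso_iff {m : ℕ} (π : Equiv.Perm (Fin n)) (i : Fin m → Fin n) (q : Equiv.Perm (Fin m)) :
    (∀ a b : Fin m, π (i a) < π (i b) ↔ q a < q b) ↔ StrictMono (fun s => π (i (q.symm s))) := by
  constructor
  · intro h s t hst
    show π (i (q.symm s)) < π (i (q.symm t))
    rw [h]
    simpa using hst
  · intro h a b
    have := h.lt_iff_lt (a := q a) (b := q b)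
    simpa using this

lemma strictMono4 (w : Fin 4 → Fin n) : StrictMono w ↔ w 0 < w 1 ∧ w 1 < w 2 ∧ w 2 < w 3 := by
  constructor
  · intro h
    exact ⟨h (by decide), h (by decide), h (by decide)⟩
  · rintro ⟨h1, h2, h3⟩
    rw [Fin.strictMono_iff_lt_succ]
    intro i
    fin_cases i
    · exact h1
    · exact h2
    · exact h3

lemma contains_iff (π : Equiv.Perm (Fin n)) (q : Equiv.Perm (Fin 4)) : Contains π 1 q ↔
    ∃ i : Fin 4 → Fin n, ((i 0).val + 2 ≤ (i 1).val ∧ (i 1).val + 2 ≤ (i 2).val ∧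
      (i 2).val + 2 ≤ (i 3).val) ∧ π (i (q.symm 0)) < π (i (q.symm 1)) ∧
      π (i (q.symm 1)) < π (i (q.symm 2)) ∧ π (i (q.symm 2)) < π (i (q.symm 3)) := by
  unfold Contains
  constructor
  · rintro ⟨i, h1, h2⟩
    rw [iso_iff, strictMono4] at h2
    exact ⟨i, ⟨h1 0 1 rfl, h1 1 2 rfl, h1 2 3 rfl⟩, h2⟩
  · rintro ⟨i, ⟨h0, h1, h2⟩, h3⟩
    refine ⟨i, ?_, ?_⟩
    · intro a b hab
      fin_cases a <;> fin_cases b <;> simp at hab ⊢ <;> assumption
    · rw [iso_iff, strictMono4]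
      exact h3

lemma contains_tau (π : Equiv.Perm (Fin n)) : Contains π 1 (tau 4 (by norm_num)) ↔
    ∃ A B X Y : Fin n, Y.val + 2 ≤ X.val ∧ X.val + 2 ≤ A.val ∧ A.val + 2 ≤ B.val ∧
      π Y < π X ∧ π X < π B ∧ π B < π A := by
  rw [contains_iff]
  have e0 : (tau 4 (by norm_num)).symm 0 = 0 := by decide
  have e1 : (tau 4 (by norm_num)).symm 1 = 1 := by decide
  have e2 : (tau 4 (by norm_num)).symm 2 = 3 := by decide
  have e3 : (tau 4 (by norm_num)).symm 3 = 2 := by decide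
  rw [e0, e1, e2, e3]
  constructor
  · rintro ⟨i, ⟨h0, h1, h2⟩, h3, h4, h5⟩
    exact ⟨i 2, i 3, i 1, i 0, h0, h1, h2, h3, h4, h5⟩
  · rintro ⟨A, B, X, Y, h0, h1, h2, h3, h4, h5⟩
    exact ⟨![Y, X, A, B], ⟨h0, h1, h2⟩, h3, h4, h5⟩

lemma contains_q (π : Equiv.Perm (Fin n)) : Contains π 1 q2143 ↔
    ∃ A B X Y : Fin n, X.val + 2 ≤ Y.val ∧ Y.val + 2 ≤ A.val ∧ A.val + 2 ≤ B.val ∧
      π Y < π X ∧ π X < π B ∧ π B < π A := by
  rw [contains_iff]
  have e0 : q2143.symm 0 = 1 := by decide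
  have e1 : q2143.symm 1 = 0 := by decide
  have e2 : q2143.symm 2 = 3 := by decide
  have e3 : q2143.symm 3 = 2 := by decide
  rw [e0, e1, e2, e3]
  constructor
  · rintro ⟨i, ⟨h0, h1, h2⟩, h3, h4, h5⟩
    exact ⟨i 2, i 3, i 0, i 1, h0, h1, h2, h3, h4, h5⟩
  · rintro ⟨A, B, X, Y, h0, h1, h2, h3, h4, h5⟩
    exact ⟨![X, Y, A, B], ⟨h0, h1, h2⟩, h3, h4, h5⟩

lemma W_lt (π : Equiv.Perm (Fin n)) (b : ℕ) (h : b ∈ W π) : b < n := by
  unfold W at h
  rw [List.mem_ofFn] at h
  obtain ⟨t, rfl⟩ := h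
  exact Fin.is_lt _

lemma bad_iff (f : Bool) (π : Equiv.Perm (Fin n)) : Bad f (Finset.range n) 0 (W π) ↔
    ∃ A B X Y : Fin n, A.val + 2 ≤ B.val ∧ c f (A.val - 1) X.val Y.val ∧
      π Y < π X ∧ π X < π B ∧ π B < π A := by
  constructor
  · rintro (⟨x, y, _, hc⟩ | ⟨a, b, x, y, ha, h, hab, _⟩ | ⟨a, b, x, y, h, hab, hc⟩)
    · exfalso
      cases f
      · rw [c_false] at hc; omega
      · rw [c_true] at hc; omega
    · exfalso
      have hb : b ∈ W π := h.subset (by simp)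
      have := W_lt π b hb
      rw [Finset.mem_range] at ha
      omega
    · rw [subW] at h
      obtain ⟨A, B, X, Y, rfl, rfl, rfl, rfl, h1, h2, h3⟩ := h
      exact ⟨A, B, X, Y, hab, hc, h1, h2, h3⟩
  · rintro ⟨A, B, X, Y, hab, hc, h1, h2, h3⟩
    refine Or.inr (Or.inr ⟨A, B, X, Y, ?_, hab, hc⟩)
    rw [subW]
    exact ⟨A, B, X, Y, rfl, rfl, rfl, rfl, h1, h2, h3⟩

lemma bad_true (π : Equiv.Perm (Fin n)) :
    Bad true (Finset.range n) 0 (W π) ↔ Contains π 1 (tau 4 (by norm_num)) := by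
  rw [bad_iff, contains_tau]
  constructor
  · rintro ⟨A, B, X, Y, hab, hc, h⟩
    rw [c_true] at hc
    exact ⟨A, B, X, Y, hc.2, by omega, hab, h⟩
  · rintro ⟨A, B, X, Y, h1, h2, h3, h⟩
    exact ⟨A, B, X, Y, h3, by rw [c_true]; omega, h⟩

lemma bad_false (π : Equiv.Perm (Fin n)) :
    Bad false (Finset.range n) 0 (W π) ↔ Contains π 1 q2143 := by
  rw [bad_iff, contains_q]
  constructor
  · rintro ⟨A, B, X, Y, hab, hc, h⟩
    rw [c_false] at hc
    exact ⟨A, B, X, Y, hc.2, by omega, hab, h⟩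
  · rintro ⟨A, B, X, Y, h1, h2, h3, h⟩
    exact ⟨A, B, X, Y, h3, by rw [c_false]; omega, h⟩

lemma W_nodup (π : Equiv.Perm (Fin n)) : (W π).Nodup := by
  unfold W
  rw [List.nodup_ofFn]
  intro s t h
  have := π.symm.injective (Fin.ext h)
  exact Fin.rev_injective this

lemma W_toFinset (π : Equiv.Perm (Fin n)) : (W π).toFinset = Finset.range n := by
  ext z
  rw [List.mem_toFinset, Finset.mem_range]
  constructor
  · exact W_lt π z
  · intro hz
    unfold W
    rw [List.mem_ofFn]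
    exact ⟨Fin.rev (π ⟨z, hz⟩), by simp⟩

lemma W_injective : Function.Injective (W (n := n)) := by
  intro π ρ h
  unfold W at h
  have h1 := List.ofFn_injective h
  have h2 : ∀ s : Fin n, π.symm s = ρ.symm s := by
    intro s
    have := congrFun h1 (Fin.rev s)
    simp only [Fin.rev_rev] at this
    exact Fin.ext this
  have h3 : π.symm = ρ.symm := Equiv.ext h2
  have := congrArg Equiv.symm h3
  simpa using this

lemma W_surj (p : List ℕ) (h1 : p.Nodup) (h2 : p.toFinset = Finset.range n) :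
    ∃ π : Equiv.Perm (Fin n), W π = p := by
  have hl : p.length = n := by
    rw [← List.toFinset_card_of_nodup h1, h2, Finset.card_range]
  have hlt : ∀ t : Fin p.length, p.get t < n := fun t => by
    rw [← Finset.mem_range, ← h2, List.mem_toFinset]
    exact List.get_mem p t
  let g : Fin n → Fin n := fun t => ⟨p.get (Fin.cast hl.symm t), hlt _⟩
  have hg : Function.Injective g := by
    intro s t hst
    have h3 : p.get (Fin.cast hl.symm s) = p.get (Fin.cast hl.symm t) := congrArg Fin.val hst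
    have h4 := (List.nodup_iff_injective_get.1 h1) h3
    exact Fin.ext (by simpa using congrArg Fin.val h4)
  let e : Equiv.Perm (Fin n) := Equiv.ofBijective g (Finite.injective_iff_bijective.1 hg)
  refine ⟨(Fin.revPerm.trans e).symm, ?_⟩
  unfold W
  apply List.ext_get
  · rw [List.length_ofFn, hl]
  · intro k h3 h4
    rw [List.get_ofFn]
    simp only [Equiv.symm_symm, Equiv.trans_apply, Fin.revPerm_apply, Fin.rev_rev]
    rfl

theorem numAv_eq (n : ℕ) (f : Bool) (q : Equiv.Perm (Fin 4))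
    (h : ∀ π : Equiv.Perm (Fin n), Bad f (Finset.range n) 0 (W π) ↔ Contains π 1 q) :
    numAv n 1 q = cnt f n (Finset.range n) 0 := by
  rw [← card_words]
  unfold numAv
  have hmem : ∀ p, p ∈ words f n (Finset.range n) 0 ↔
      p.Nodup ∧ p.toFinset = Finset.range n ∧ ¬ Bad f (Finset.range n) 0 p :=
    fun p => mem_words f n (Finset.range n) 0 p (Finset.card_range n)
  let F : {π : Equiv.Perm (Fin n) // ¬ Contains π 1 q} → {p // p ∈ words f n (Finset.range n) 0} :=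
    fun π => ⟨W π.1, (hmem _).2 ⟨W_nodup π.1, W_toFinset π.1, by rw [h]; exact π.2⟩⟩
  have hF : Function.Bijective F := by
    constructor
    · intro π ρ hh
      exact Subtype.ext (W_injective (congrArg Subtype.val hh))
    · rintro ⟨p, hp⟩
      obtain ⟨h1, h2, h3⟩ := (hmem p).1 hp
      obtain ⟨π, hπ⟩ := W_surj p h1 h2
      refine ⟨⟨π, ?_⟩, Subtype.ext hπ⟩
      rw [← h, hπ]
      exact h3
  rw [Nat.card_congr (Equiv.ofBijective F hF), Nat.card_eq_fintype_card, Fintype.card_coe]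

/-- **Main result.** For all `n ≥ 8` the distant pattern `dist_1(2143)` is avoided by fewer
permutations of size `n` than `dist_1(1243) = dist_1(τ_4)`. In particular it is not true that for
all `m ≥ 3` and `r ≥ 1` there is `n₀` such that `|Av_n(dist_r(τ_m))| ≤ |Av_n(dist_r(q))|` for all
`n > n₀` and all `q ∈ S_m`. -/
theorem result :
    (∀ n : ℕ, 8 ≤ n → numAv n 1 q2143 < numAv n 1 (tau 4 (by norm_num))) ∧
    ¬ (∀ (m : ℕ) (hm : 3 ≤ m) (r : ℕ), 1 ≤ r → ∃ n₀ : ℕ, ∀ n : ℕ, n₀ < n →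
        ∀ q : Equiv.Perm (Fin m), numAv n r (tau m hm) ≤ numAv n r q) := by
  have h1 : ∀ n : ℕ, 8 ≤ n → numAv n 1 q2143 < numAv n 1 (tau 4 (by norm_num)) := by
    intro n hn
    rw [numAv_eq n false q2143 bad_false, numAv_eq n true (tau 4 (by norm_num)) bad_true]
    exact cnt_lt_range n hn
  refine ⟨h1, fun h => ?_⟩
  obtain ⟨n₀, h2⟩ := h 4 (by norm_num) 1 le_rfl
  have h3 := h2 (n₀ + 8) (by omega) q2143
  have h4 := h1 (n₀ + 8) (by omega)
  omega

end Pool.Agent.Results.MP_0bc917_co.NotLeastAvoided
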